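import Pool.Agent.Helper93.TCU.SStmt3

/-!
# T10, module SN2: the numbers of the first step of the S-stage
-/

set_option autoImplicit false

namespace Pool.TCU

open Pool.TC Pool.TCM Pool.TCS Pool.TCV Finset
open scoped Classical

/-- the second item -/
private theorem SN2_col (b g y nz ell te h s1 u w t : ℝ)
    (hb0 : 0 < b) (hb1 : b ≤ 1 / 1000) (hu0 : 0 ≤ u) (hu1 : u ≤ 1)
    (huw2 : 99 / 100 ≤ u * w) (huw1 : u * w ≤ 1)
    (hell0 : 0 < ell) (hte : te = t * ell) (ht0 : 0 < t) (ht1 : t ≤ 1 / 1000) (hnz0 : 0 ≤ nz)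
    (hnz1 : nz ≤ ell / 1000) (hh : h = nz / ell) (hbw : 1 - b ≤ w + 7 * b * h)
    (hnz : nz * 1000000 ≤ te) (hell : 1000000 ≤ te) (hyl : y * ell * 1000000 ≤ te)
    (hgl : g * ell * 2000 ≤ 7 * te)
    (hR2 : u * w * ell - te / 2 - g * ell - y * ell - 1 ≤ s1) :
    (1 - b) * u * ((1 - t) * ell + 8 * nz) + 2 * (y * ell) ≤ s1 := by
  have hh0 : 0 ≤ h := by rw [hh]; positivity
  have hh1 : h ≤ 1 / 1000 := by
    rw [hh, div_le_iff₀ hell0]
    linarith only [hnz1]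
  have e : h * ell = nz := by rw [hh]; exact div_mul_cancel₀ nz hell0.ne'
  have hte0 : 0 ≤ te := by rw [hte]; positivity
  obtain ⟨m, hm⟩ : ∃ m, m = u * w := ⟨_, rfl⟩
  rw [← hm] at huw2 huw1 hR2
  have hB : 0 ≤ (1 - t) * ell + 8 * nz := by
    have : 0 ≤ (1 - t) * ell := mul_nonneg (by linarith only [ht1]) hell0.le
    linarith only [this, hnz0]
  have hB0 : 0 ≤ u * ((1 - t) * ell + 8 * nz) := mul_nonneg hu0 hB
  have h1 : (1 - b) * (u * ((1 - t) * ell + 8 * nz)) ≤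
      (w + 7 * b * h) * (u * ((1 - t) * ell + 8 * nz)) := mul_le_mul_of_nonneg_right hbw hB0
  have h3 : (w + 7 * b * h) * (u * ((1 - t) * ell + 8 * nz)) =
      m * ell - m * te + m * (8 * nz) + u * (7 * b) * ((1 - t) * nz) +
        u * (7 * b) * (8 * nz * h) := by
    rw [hte, hm]
    have e1 : (w + 7 * b * h) * (u * ((1 - t) * ell + 8 * nz)) =
      u * w * ell - u * w * (t * ell) + u * w * (8 * nz) +
        u * (7 * b) * ((1 - t) * (h * ell)) + u * (7 * b) * (8 * nz * h) := by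
      ring
    rw [e1, e]
  have h4 : m * (8 * nz) ≤ 1 * (8 * nz) :=
    mul_le_mul_of_nonneg_right huw1 (by linarith only [hnz0])
  have hub : u * (7 * b) ≤ 1 := by
    have := mul_le_mul hu1 (show 7 * b ≤ 1 by linarith only [hb1])
      (by linarith only [hb0]) (by norm_num)
    linarith only [this]
  have hub0 : 0 ≤ u * (7 * b) := mul_nonneg hu0 (by linarith only [hb0])
  have h6 : (1 - t) * nz ≤ 1 * nz := mul_le_mul_of_nonneg_right (by linarith only [ht0]) hnz0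
  have h7 : 0 ≤ (1 - t) * nz := mul_nonneg (by linarith only [ht1]) hnz0
  have h5 : u * (7 * b) * ((1 - t) * nz) ≤ 1 * ((1 - t) * nz) :=
    mul_le_mul_of_nonneg_right hub h7
  have h8 : 8 * nz * h ≤ 8 * nz * (1 / 1000) :=
    mul_le_mul_of_nonneg_left hh1 (by linarith only [hnz0])
  have h9 : 0 ≤ 8 * nz * h := mul_nonneg (by linarith only [hnz0]) hh0
  have h10 : u * (7 * b) * (8 * nz * h) ≤ 1 * (8 * nz * h) :=
    mul_le_mul_of_nonneg_right hub h9
  have h11 : 99 / 100 * te ≤ m * te := mul_le_mul_of_nonneg_right huw2 hte0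
  have h12 : (1 - b) * u * ((1 - t) * ell + 8 * nz) =
      (1 - b) * (u * ((1 - t) * ell + 8 * nz)) := by ring
  rw [h12]
  rw [h3] at h1
  linarith only [h1, h4, h5, h6, h8, h10, h11, hR2, hnz, hell, hyl, hgl, hnz0]

/-- the third item -/
private theorem SN2_pn (b p g y nz ell te h0 s1 u w : ℝ)
    (hb0 : 0 < b) (hp0 : 0 < p) (hu : u = 1 - (b - p / 10))
    (hw2 : 998 / 1000 ≤ w) (hw1 : w ≤ 1) (hell0 : 0 < ell) (hnz0 : 0 ≤ nz) (hh0 : 0 ≤ h0)
    (hh : 80 * h0 ≤ p) (hpe : 320 * te ≤ p * ell)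
    (hnz : nz * 1000000 ≤ te) (hell : 1000000 ≤ te) (hyl : y * ell * 1000000 ≤ te)
    (hgl : g * ell * 2000 ≤ 7 * te)
    (hR2 : u * w * ell - te / 2 - g * ell - y * ell - 1 ≤ s1) :
    (1 - b) * w * ((1 + 2 * h0) * ell + 8 * nz) + 2 * (y * ell) ≤ s1 := by
  have hw0 : 0 ≤ w := by linarith only [hw2]
  have hhe : 80 * (h0 * ell) ≤ p * ell := by
    have := mul_le_mul_of_nonneg_right hh hell0.le
    linarith only [this]
  have hhe0 : 0 ≤ h0 * ell := mul_nonneg hh0 hell0.le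
  have hpe0 : 0 ≤ p * ell := mul_nonneg hp0.le hell0.le
  have h1 : (1 - b) * w * ((1 + 2 * h0) * ell + 8 * nz) ≤
      w * ((1 - b) * ell) + w * (2 * (h0 * ell)) + 8 * nz := by
    have e : (1 - b) * w * ((1 + 2 * h0) * ell + 8 * nz) =
        w * ((1 - b) * ell) + w * (2 * (h0 * ell)) - b * (w * (2 * (h0 * ell))) +
          (1 - b) * w * (8 * nz) := by ring
    have h2 : 0 ≤ b * (w * (2 * (h0 * ell))) :=
      mul_nonneg hb0.le (mul_nonneg hw0 (by linarith only [hhe0]))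
    have h4 : (1 - b) * w ≤ 1 := by
      have := mul_le_mul (show 1 - b ≤ 1 by linarith only [hb0]) hw1 hw0 (by norm_num)
      linarith only [this]
    have h3 : (1 - b) * w * (8 * nz) ≤ 1 * (8 * nz) :=
      mul_le_mul_of_nonneg_right h4 (by linarith only [hnz0])
    rw [e]
    linarith only [h2, h3]
  have h2 : u * w * ell = w * ((1 - b) * ell) + w * (p * ell) / 10 := by
    rw [hu]
    ring
  have h4 : w * (2 * (h0 * ell)) ≤ w * (p * ell / 40) :=
    mul_le_mul_of_nonneg_left (by linarith only [hhe]) hw0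
  have h5 : 998 / 1000 * (p * ell) ≤ w * (p * ell) := mul_le_mul_of_nonneg_right hw2 hpe0
  have h6 : w * (p * ell / 40) = w * (p * ell) / 40 := by ring
  rw [h2] at hR2
  rw [h6] at h4
  obtain ⟨q, hq⟩ : ∃ q, q = p * ell := ⟨_, rfl⟩
  rw [← hq] at hpe h4 h5 hR2
  obtain ⟨wq, hwq⟩ : ∃ wq, wq = w * q := ⟨_, rfl⟩
  rw [← hwq] at h4 h5 hR2
  linarith only [h1, h4, h5, hR2, hpe, hnz, hell, hyl, hgl]

/-- the lower bound for the length -/
private theorem SN2_low (g y ell te s u w t : ℝ)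
    (huw2 : 99 / 100 ≤ u * w) (huw1 : u * w ≤ 1)
    (hell0 : 0 < ell) (hte : te = t * ell) (ht0 : 0 < t) (ht1 : t ≤ 1 / 320000)
    (hell : 1000000 ≤ te) (hyl : y * ell * 1000000 ≤ te) (hyl0 : 0 ≤ y * ell)
    (hgl : g * ell * 2000 ≤ 7 * te) (hgl0 : 0 ≤ g * ell)
    (hs : ell * (u * (1 - g) * w) - y * ell - 1 ≤ s) :
    0 ≤ ell * (u * (1 - g) * w) - y * ell ∧ 98 / 100 * ell ≤ s ∧
    u * w * ell - te / 2 - g * ell - y * ell - 1 ≤ (1 - t / 2) * s := by
  have hte1 : te ≤ ell / 320000 := by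
    rw [hte]
    have := mul_le_mul_of_nonneg_right ht1 hell0.le
    linarith only [this]
  have hte0 : 0 ≤ te := by rw [hte]; positivity
  have e : ell * (u * (1 - g) * w) = u * w * ell - u * w * (g * ell) := by ring
  rw [e] at hs ⊢
  obtain ⟨m, hm⟩ : ∃ m, m = u * w := ⟨_, rfl⟩
  rw [← hm] at huw2 huw1 hs ⊢
  have hgl2 : m * (g * ell) ≤ 1 * (g * ell) := mul_le_mul_of_nonneg_right huw1 hgl0
  have hs3 : m * ell - g * ell - y * ell - 1 ≤ s := by linarith only [hgl2, hs]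
  have h1 : 99 / 100 * ell ≤ m * ell := mul_le_mul_of_nonneg_right huw2 hell0.le
  refine ⟨by linarith only [h1, hgl2, hgl, hyl, hte1, hell0], ?_, ?_⟩
  · linarith only [h1, hs3, hgl, hyl, hte1, hell, hell0]
  · have h2 : (1 - t / 2) * (m * ell - g * ell - y * ell - 1) ≤ (1 - t / 2) * s :=
      mul_le_mul_of_nonneg_left hs3 (by linarith only [ht1])
    have h3 : 0 ≤ t / 2 * (g * ell + y * ell + 1) :=
      mul_nonneg (by linarith only [ht0]) (by linarith only [hgl0, hyl0])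
    have e2 : (1 - t / 2) * (m * ell - g * ell - y * ell - 1) =
        m * ell - m * (t * ell) / 2 - g * ell - y * ell - 1 +
          t / 2 * (g * ell + y * ell + 1) := by ring
    rw [e2, ← hte] at h2
    have h4 : m * te ≤ 1 * te := mul_le_mul_of_nonneg_right huw1 hte0
    linarith only [h2, h3, h4]

private theorem SN2_real (b p th g y nz ell x D h0 s u w : ℝ)
    (hb0 : 0 < b) (hb1 : b ≤ 1 / 1000) (hp0 : 0 < p) (hp1 : p ≤ 1 / 1000) (hpb : p ≤ b)
    (hth0 : 0 < th)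
    (hth : 320 * th ≤ p) (hh0 : 0 ≤ h0) (hh : 80 * h0 ≤ p) (hg0 : 0 ≤ g)
    (hg : 2000 * g ≤ 7 * th) (hy0 : 0 ≤ y) (hy : y * 1000000 ≤ th) (hnz0 : 0 ≤ nz)
    (hnz : nz * 1000000 ≤ th * ell) (hell : 1000000 ≤ th * ell) (hell0 : 0 < ell)
    (hx1 : ell ≤ x) (hx2 : x ≤ ell + 7 * nz)
    (hD : D ≤ 21 / 10 * ell) (hu : u = 1 - (b - p / 10)) (hw : w = 1 - b * x / ell)
    (hs : ell * (u * (1 - g) * w) - y * ell - 1 ≤ s) :
    0 ≤ ell * (u * (1 - g) * w) - y * ell ∧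
    (1 - b) * u * ((1 - th) * ell + 8 * nz) + 2 * (y * ell) ≤ (1 - th / 2) * s ∧
    (1 - b) * w * ((1 + 2 * h0) * ell + 8 * nz) + 2 * (y * ell) ≤ (1 - th / 2) * s ∧
    D ≤ 22 / 10 * s ∧ D ≤ 99 * ((1 - th / 2) * s) := by
  have hth1 : th ≤ 1 / 320000 := by linarith only [hth, hp1]
  have hu1 : u ≤ 1 := by rw [hu]; linarith only [hpb, hb0]
  have hu2 : 998 / 1000 ≤ u := by rw [hu]; linarith only [hb1, hp0]
  obtain ⟨te, hte⟩ : ∃ te, te = th * ell := ⟨_, rfl⟩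
  rw [← hte] at hnz hell
  have hte1 : te ≤ ell / 320000 := by
    rw [hte]
    have := mul_le_mul_of_nonneg_right hth1 hell0.le
    linarith only [this]
  have hnz1 : nz ≤ ell / 1000 := by linarith only [hte1, hnz, hell0]
  obtain ⟨h, hh'⟩ : ∃ h, h = nz / ell := ⟨_, rfl⟩
  have hnl : h ≤ 1 / 1000 := by
    rw [hh', div_le_iff₀ hell0]
    linarith only [hnz1]
  have hnl0 : 0 ≤ h := by rw [hh']; positivity
  have hbx : b * x / ell ≤ b + 7 * b * h := by
    have h1 : b * x / ell ≤ b * (ell + 7 * nz) / ell := by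
      gcongr
    have h2 : b * (ell + 7 * nz) / ell = b + 7 * b * h := by
      rw [hh']
      field_simp
    linarith only [h1, h2]
  have hbx0 : 0 ≤ b * x / ell := by
    have : 0 ≤ x := by linarith only [hell0, hx1]
    positivity
  have h7' : 7 * b * h ≤ 7 * b * (1 / 1000) :=
    mul_le_mul_of_nonneg_left hnl (by linarith only [hb0])
  have hw1 : w ≤ 1 := by rw [hw]; linarith only [hbx0]
  have hw2 : 998 / 1000 ≤ w := by
    rw [hw]
    linarith only [hbx, h7', hb1]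
  have hbw : 1 - b ≤ w + 7 * b * h := by
    rw [hw]
    linarith only [hbx]
  have hw0 : 0 ≤ w := by linarith only [hw2]
  have hu0 : 0 ≤ u := by linarith only [hu2]
  have huw1 : u * w ≤ 1 := by
    have := mul_le_mul hu1 hw1 hw0 (by norm_num)
    linarith only [this]
  have huw2 : 99 / 100 ≤ u * w := by
    have := mul_le_mul hu2 hw2 (by norm_num) hu0
    linarith only [this]
  have hyl0 : 0 ≤ y * ell := mul_nonneg hy0 hell0.le
  have hyl : y * ell * 1000000 ≤ te := by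
    rw [hte]
    have := mul_le_mul_of_nonneg_right hy hell0.le
    linarith only [this]
  have hgl : g * ell * 2000 ≤ 7 * te := by
    rw [hte]
    have := mul_le_mul_of_nonneg_right hg hell0.le
    linarith only [this]
  have hgl0 : 0 ≤ g * ell := mul_nonneg hg0 hell0.le
  obtain ⟨k1, k2, k3⟩ := SN2_low g y ell te s u w th huw2 huw1 hell0 hte hth0 hth1 hell hyl
    hyl0 hgl hgl0 hs
  have hs0 : 0 ≤ s := by linarith only [k2, hell0]
  refine ⟨k1, ?_, ?_, ?_, ?_⟩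
  · exact SN2_col b g y nz ell te h _ u w th hb0 hb1 hu0 hu1 huw2 huw1 hell0 hte hth0
      (by linarith only [hth1]) hnz0 hnz1 hh' hbw hnz hell hyl hgl k3
  · have hpe : 320 * te ≤ p * ell := by
      rw [hte]
      have := mul_le_mul_of_nonneg_right hth hell0.le
      linarith only [this]
    exact SN2_pn b p g y nz ell te h0 _ u w hb0 hp0 hu hw2 hw1 hell0 hnz0 hh0 hh hpe hnz hell
      hyl hgl k3
  · linarith only [k2, hD, hell0]
  · have h1 : 99 / 100 * s ≤ (1 - th / 2) * s :=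
      mul_le_mul_of_nonneg_right (by linarith only [hth1]) hs0
    linarith only [k2, hD, hell0, h1]

theorem thm_SN2 : St_SN2 := by
  intro P ell x hN hF
  have hX := hF.X0
  have hX0 : (0 : ℝ) < P.X := lt_of_lt_of_le (by norm_num) hX
  have hX1 : (1 : ℝ) ≤ P.X := le_trans (by norm_num) hX
  obtain ⟨b, hb⟩ : ∃ b, b = bet (8 * P.kn) P.kn := ⟨_, rfl⟩
  have hsb : sb P = b := by rw [hb]; rfl
  have hb1 := hF.b1
  have hb2 := hF.b2
  rw [hsb] at hb1 hb2
  have hX3 : (10 : ℝ) ^ 20 ≤ (P.X : ℝ) ^ 3 := by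
    calc (10 : ℝ) ^ 20 ≤ P.X := hX
      _ = (P.X : ℝ) ^ 1 := (pow_one _).symm
      _ ≤ (P.X : ℝ) ^ 3 := pow_le_pow_right₀ hX1 (by norm_num)
  have hb0 : 0 < b := lt_of_lt_of_le (by positivity) hb1
  have hbs : b ≤ 1 / 1000 := by
    refine hb2.trans ?_
    refine one_div_le_one_div_of_le (by norm_num) ?_
    have : (10 : ℝ) ^ 20 = 100000000000000000000 := by norm_num
    linarith
  have hd : P.delta = 1 / (P.X : ℝ) ^ 4900 := hN.delta
  have hd0 : 0 < P.delta := by rw [hd]; positivity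
  have hd1 : P.delta ≤ 1 := by
    rw [hd, div_le_one (by positivity)]
    exact one_le_pow₀ hX1
  obtain ⟨p, hp⟩ : ∃ p, p = b ^ 2 * P.delta := ⟨_, rfl⟩
  have hp0 : 0 < p := by rw [hp]; positivity
  have hpb : p ≤ b := by
    rw [hp]
    have h1 : b ^ 2 ≤ b := by
      have := mul_le_mul_of_nonneg_right (show b ≤ 1 by linarith only [hbs]) hb0.le
      rw [pow_two]
      linarith only [this]
    have h2 : b ^ 2 * P.delta ≤ b ^ 2 * 1 := mul_le_mul_of_nonneg_left hd1 (sq_nonneg b)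
    linarith only [h1, h2]
  have hp1 : p ≤ 1 / 1000 := hpb.trans hbs
  have hZ : (0 : ℝ) < (P.X : ℝ) ^ 4912 := by positivity
  have hth1 := hF.th1
  have hth0 : 0 < P.thp := by
    have : 0 < 1 / (P.X : ℝ) ^ 4912 := by positivity
    linarith
  have hthZ : 2 ≤ P.thp * (P.X : ℝ) ^ 4912 := by
    rw [div_le_iff₀ hZ] at hth1
    linarith
  have h100 : (10 : ℝ) ^ 20 * (P.X : ℝ) ^ 4912 ≤ (P.X : ℝ) ^ 1000000 := by
    calc (10 : ℝ) ^ 20 * (P.X : ℝ) ^ 4912 ≤ P.X * (P.X : ℝ) ^ 4912 :=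
          mul_le_mul_of_nonneg_right hX hZ.le
      _ = (P.X : ℝ) ^ 4913 := by rw [pow_succ' (P.X : ℝ) 4912]
      _ ≤ (P.X : ℝ) ^ 1000000 := pow_le_pow_right₀ hX1 (by norm_num)
  have h400 : (P.X : ℝ) ^ 1000000 ≤ (P.X : ℝ) ^ 4000000 := pow_le_pow_right₀ hX1 (by norm_num)
  have hDpos : (0 : ℝ) < P.D := lt_of_lt_of_le (by positivity) hF.D1
  have hell0 : (0 : ℝ) < ell := by
    have := hF.l1
    linarith
  have hDell : (P.D : ℝ) ≤ 21 / 10 * ell := hF.l1
  have hnz0 : 0 ≤ P.nz := by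
    rw [hN.nz]
    positivity
  have hbig : (10 : ℝ) ^ 20 = 100000000000000000000 := by norm_num
  have h3 : 2 * (ell : ℝ) ≤ P.thp * (P.X : ℝ) ^ 4912 * (ell : ℝ) :=
    mul_le_mul_of_nonneg_right hthZ hell0.le
  obtain ⟨Z, hZ'⟩ : ∃ Z, Z = (P.X : ℝ) ^ 4912 := ⟨_, rfl⟩
  rw [← hZ'] at h100 hZ hthZ h3
  have h33 : 21 / 10 * (ell : ℝ) ≤ 21 / 20 * (P.thp * (ell : ℝ)) * Z := by
    have e : 21 / 20 * (P.thp * (ell : ℝ)) * Z = 21 / 20 * (P.thp * Z * (ell : ℝ)) := by ring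
    rw [e]
    linarith only [h3]
  have hte0 : 0 ≤ P.thp * (ell : ℝ) := mul_nonneg hth0.le hell0.le
  have hnz : P.nz * 1000000 ≤ P.thp * (ell : ℝ) := by
    have h1 : P.nz * (10 ^ 20 * Z) ≤ 21 / 10 * (ell : ℝ) := by
      refine le_trans ?_ hDell
      exact (mul_le_mul_of_nonneg_left h100 hnz0).trans hF.nz1
    have h2 : P.nz * 10 ^ 20 * Z ≤ 21 / 20 * (P.thp * (ell : ℝ)) * Z := by
      rw [mul_assoc]
      exact h1.trans h33
    have h4 := le_of_mul_le_mul_right h2 hZ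
    rw [hbig] at h4
    linarith only [h4, hnz0, hte0]
  have her := hF.er (ell : ℝ) (by
    have h1 : (1 : ℝ) ≤ (P.X : ℝ) ^ 520000 := one_le_pow₀ hX1
    have h2 : 3 * (ell : ℝ) ≤ 3 * (P.X : ℝ) ^ 520000 * ell := by
      have := mul_le_mul_of_nonneg_right h1 hell0.le
      linarith only [this]
    linarith only [h2, hDell, hell0])
  have hy0 : 0 ≤ Er P.kn P.Lam ell := by
    unfold Er
    positivity
  have hy : Er P.kn P.Lam ell * 1000000 ≤ P.thp := by
    have h1 : Er P.kn P.Lam ell * (10 ^ 20 * Z) ≤ 1 :=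
      (mul_le_mul_of_nonneg_left h100 hy0).trans her
    have h2 : Er P.kn P.Lam ell * 10 ^ 20 * Z ≤ P.thp * Z := by
      rw [mul_assoc]
      linarith only [h1, hthZ]
    have h4 := le_of_mul_le_mul_right h2 hZ
    rw [hbig] at h4
    linarith only [h4, hy0]
  have hell : (1000000 : ℝ) ≤ P.thp * (ell : ℝ) := by
    have h1 : 10 ^ 20 * Z ≤ 21 / 10 * (ell : ℝ) :=
      (h100.trans h400).trans (hF.D1.trans hDell)
    have h2 : 10 ^ 20 * Z ≤ 21 / 20 * (P.thp * (ell : ℝ)) * Z := h1.trans h33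
    have h4 := le_of_mul_le_mul_right h2 hZ
    rw [hbig] at h4
    linarith only [h4]
  have hth3 := hF.th3
  have hh := hF.h0
  rw [hsb, ← hp] at hth3 hh
  have hxi : 0 ≤ P.xi := by
    rw [hN.xi, hN.pmax, hN.Lam, hN.theta]
    positivity
  have hk1 : 0 ≤ sk1 P := by
    unfold sk1
    rw [hsb]
    positivity
  have hs : (sell1 P ell x : ℝ) = (⌊(ell : ℝ) * ((1 - (b - p / 10)) * (1 - 7 * P.xi * sk1 P) *
      (1 - b * x / ell)) - Er P.kn P.Lam ell * ell⌋₊ : ℝ) := by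
    unfold sell1
    rw [← hb, ← hp]
  have hfl := Nat.lt_floor_add_one ((ell : ℝ) * ((1 - (b - p / 10)) * (1 - 7 * P.xi * sk1 P) *
      (1 - b * x / ell)) - Er P.kn P.Lam ell * ell)
  rw [← hs] at hfl
  have key := SN2_real b p P.thp (7 * P.xi * sk1 P) (Er P.kn P.Lam ell) P.nz ell x P.D
    ((1 / 2) ^ P.r) (sell1 P ell x) (1 - (b - p / 10)) (1 - b * x / ell) hb0 hbs hp0 hp1 hpb hth0
    (by linarith only [hth3]) (by positivity) (by linarith only [hh]) (by positivity)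
    (by linarith only [hF.th2]) hy0 hy
    hnz0 hnz hell hell0 hF.x1 hF.x2 hDell rfl rfl (by linarith only [hfl])
  obtain ⟨k0, k1, k2, k3, k4⟩ := key
  have hfl2 := Nat.floor_le k0
  rw [← hs] at hfl2
  rw [← hb, ← hp]
  refine ⟨hfl2, ?_, ?_, k3, k4⟩
  · rw [mul_assoc 2]
    exact k1
  · rw [mul_assoc 2]
    exact k2

end Pool.TCU
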